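import Pool.Agent.W169.HF.DefsL

/-! Project HF: existence of the saddle point. -/

set_option autoImplicit false

open Complex MeasureTheory Filter Topology Set

namespace Pool.Agent.W597.HF

open Pool.Agent.W169.HF

theorem lsad : S_LSAD := by
  intro K a η hK ha hη
  refine ⟨min η (1 / (4 * K)), lt_min hη (by positivity), ?_⟩
  intro ℓ t g P hP ht ht1 hℓ h2 x hx
  have htη : t ≤ η := ht1.trans (min_le_left _ _)
  have htK : t * K ≤ 1 / 4 := by
    have h1 : t ≤ 1 / (4 * K) := ht1.trans (min_le_right _ _)
    have hK0 : 0 < K := by linarith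
    rw [le_div_iff₀ (by positivity)] at h1
    linarith
  have hlip : ∀ u v : ℝ, a ≤ u → a ≤ v → |(P u).re - (P v).re| ≤ K * |u - v| := by
    intro u v hu hv
    have h1 := hP.lip u v hu hv
    have h3 : |(P u).re - (P v).re| ≤ ‖P u - P v‖ := by
      rw [← Complex.sub_re]; exact Complex.abs_re_le_norm _
    linarith
  set q : ℝ → ℝ := fun u => 2 * t * (P u).re - (u - x) with hq
  set b : ℝ := a + 2 * |2 * t * ℓ - a + x| with hb
  have hab : a ≤ b := by
    have := abs_nonneg (2 * t * ℓ - a + x)
    linarith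
  have hcont : ContinuousOn q (Icc a b) := by
    have h1 : ContinuousOn (fun u => (P u).re) (Icc a b) := by
      rw [Metric.continuousOn_iff]
      intro v hv ε hε
      refine ⟨ε / K, by positivity, ?_⟩
      intro u hu huv
      rw [Real.dist_eq] at huv ⊢
      have h2 := hlip u v hu.1 hv.1
      have hK0 : 0 < K := by linarith
      rw [lt_div_iff₀ hK0] at huv
      linarith
    have h2 : ContinuousOn (fun u : ℝ => u - x) (Icc a b) := by fun_prop
    exact (continuousOn_const.mul h1).sub h2
  have hqa : a ≤ q a := by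
    simp only [hq]
    rw [← hℓ]
    linarith
  have hqb : q b ≤ 0 := by
    have h1 := hlip b a hab le_rfl
    have h4 : |b - a| = b - a := abs_of_nonneg (by linarith)
    rw [h4] at h1
    have h5 : (P b).re ≤ ℓ + K * (b - a) := by
      have := (abs_le.1 h1).2
      rw [← hℓ] at this
      linarith
    have h6 : 2 * t * (P b).re ≤ 2 * t * (ℓ + K * (b - a)) :=
      mul_le_mul_of_nonneg_left h5 (by positivity)
    have h7 : t * K * (b - a) ≤ 1 / 4 * (b - a) :=
      mul_le_mul_of_nonneg_right htK (by linarith)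
    have h8 : 2 * t * ℓ - a + x ≤ |2 * t * ℓ - a + x| := le_abs_self _
    have h9 : b - a = 2 * |2 * t * ℓ - a + x| := by rw [hb]; ring
    simp only [hq]
    nlinarith
  have ha0 : (0 : ℝ) ≤ a := by linarith
  obtain ⟨c, hc, hqc⟩ := intermediate_value_Icc' hab hcont
    (show (0 : ℝ) ∈ Icc (q b) (q a) from ⟨hqb, ha0.trans hqa⟩)
  refine ⟨c, ?_, ?_⟩
  · have h1 := hlip c a hc.1 le_rfl
    have h4 : |c - a| = c - a := abs_of_nonneg (by linarith [hc.1])
    rw [h4] at h1
    have h5 : ℓ - K * (c - a) ≤ (P c).re := by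
      have := (abs_le.1 h1).1
      rw [← hℓ] at this
      linarith
    have h6 : 2 * t * (ℓ - K * (c - a)) ≤ 2 * t * (P c).re :=
      mul_le_mul_of_nonneg_left h5 (by positivity)
    have h7 : t * K * (c - a) ≤ 1 / 4 * (c - a) :=
      mul_le_mul_of_nonneg_right htK (by linarith [hc.1])
    simp only [hq] at hqc hqa
    rw [← hℓ] at hqa
    nlinarith
  · simp only [hq] at hqc
    rw [eq_div_iff (by positivity)]
    linarith

end Pool.Agent.W597.HF
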